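import Mathlib
import Pool.Agent.Q49.MR.Stm

/-!
# Project MR2 (helper49): the codes C_{δ,s} in even characteristic (problem MP_e79d62_co)

`K` is a finite field of characteristic 2 with `q` elements, `L/K` has degree 8,
`σ x = x ^ (q ^ s)` with `s` odd.  `x_i` (also `x1, x2, x3`) means `σ^i x` below.
Everything is in characteristic 2: `+` and `−` agree (`CharP L 2`, `reduce_mod_char`,
`CharTwo.add_self_eq_zero`, ...).  All identities below were checked numerically (q = 2, 4).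

Each `S2_...` is one lemma job; its docstring contains the complete proof.
-/

open Module

namespace Q49.MR2

open Q49.MR

/-- Standing data. -/
structure Cyc2 {K L : Type} [Field K] [Finite K] [Field L] [Finite L] [Algebra K L]
    (σ : L ≃ₐ[K] L) : Prop where
  two : (2 : K) = 0
  rank : finrank K L = 8
  pow : ∃ s : ℕ, Odd s ∧ ∀ x : L, σ x = x ^ (Nat.card K ^ s)

section defs

variable {K L : Type} [Field K] [Field L] [Algebra K L] (σ : L ≃ₐ[K] L)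

/-- The elements with `x_4 = x` (dimension 4). -/
def E4 : Submodule K L where
  carrier := {x | σ (σ (σ (σ x))) = x}
  add_mem' := by
    intro a b ha hb
    simp only [Set.mem_ofPred_eq, map_add] at *
    rw [ha, hb]
  zero_mem' := by simp
  smul_mem' := by
    intro c x hx
    simp only [Set.mem_ofPred_eq, map_smul] at *
    rw [hx]

/-- The elements with `x_2 = x` (dimension 2). -/
def E2 : Submodule K L where
  carrier := {x | σ (σ x) = x}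
  add_mem' := by
    intro a b ha hb
    simp only [Set.mem_ofPred_eq, map_add] at *
    rw [ha, hb]
  zero_mem' := by simp
  smul_mem' := by
    intro c x hx
    simp only [Set.mem_ofPred_eq, map_smul] at *
    rw [hx]

/-- `t4 x = x + x1 + x2 + x3`. -/
def t4 (x : L) : L := x + σ x + σ (σ x) + σ (σ (σ x))

/-- `φ = θ + θ1`. -/
def phi (θ : L) : L := θ + σ θ

/-- `n = θ² + θ`. -/
def nn (θ : L) : L := θ ^ 2 + θ

/-- `ν = 1 + φ + m`. -/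
def nu (θ m : L) : L := 1 + phi σ θ + m

/-- bilinear version of `gL` (not symmetric), `gL σ θ m χ w = bL σ θ m χ w w`. -/
def bL (θ m χ w w' : L) : L :=
  t4 σ (nn θ * w * w') + t4 σ (nu σ θ m * w * σ w')
    + χ * w * σ (σ w') + σ χ * σ w * σ (σ (σ w'))

/-- `g_χ(w) = t4(n w²) + t4(ν w w1) + χ w w2 + χ1 w1 w3`. -/
def gL (θ m χ w : L) : L := bL σ θ m χ w w

/-- `T(w) = t4(w)` as a `K`-valued functional on `E4`; `o` is an element of trace 1. -/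
noncomputable def TT (o : L) : E4 σ →ₗ[K] K where
  toFun w := Algebra.trace K L (o * t4 σ w)
  map_add' := by
    intro a b
    rw [← map_add]; congr 1
    simp only [t4, Submodule.coe_add, map_add]; ring
  map_smul' := by
    intro c a
    rw [RingHom.id_apply, ← map_smul]; congr 1
    simp only [t4, Submodule.coe_smul, Algebra.smul_def, map_mul, AlgEquiv.commutes]
    ring

/-- the `K`-valued bilinear form on `E4` with `BB w w = g_χ(w)`; `o` is an element of trace 1. -/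
noncomputable def BB (θ m o χ : L) : LinearMap.BilinForm K (E4 σ) :=
  LinearMap.mk₂ K (fun w w' => Algebra.trace K L (o * bL σ θ m χ w w'))
    (by
      intro a b c
      rw [← map_add]; congr 1
      simp only [bL, t4, Submodule.coe_add, map_add, map_mul]; ring)
    (by
      intro c a b
      rw [← map_smul]; congr 1
      simp only [bL, t4, Submodule.coe_smul, Algebra.smul_def, map_mul, AlgEquiv.commutes]
      ring)
    (by
      intro a b c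
      rw [← map_add]; congr 1
      simp only [bL, t4, Submodule.coe_add, map_add, map_mul]; ring)
    (by
      intro c a b
      rw [← map_smul]; congr 1
      simp only [bL, t4, Submodule.coe_smul, Algebra.smul_def, map_mul, AlgEquiv.commutes]
      ring)

/-- A solution: `h, y, z ∈ E4` with `h² + h + y z = n`, `h + h1 + y z1 + y1 z = ν`. -/
def Sol2 (θ m : L) : Prop :=
  ∃ h ∈ E4 σ, ∃ y ∈ E4 σ, ∃ z ∈ E4 σ, h ^ 2 + h + y * z = nn θ ∧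
    h + σ h + y * σ z + σ y * z = nu σ θ m

/-- `G(w,ρ) = ρ² + ρ (w + w1) + ν w w1 + ν2 w2 w3 + t4(n w²)`. -/
def G2 (θ m w ρ : L) : L :=
  ρ ^ 2 + ρ * (w + σ w) + nu σ θ m * w * σ w
    + σ (σ (nu σ θ m)) * σ (σ w) * σ (σ (σ w)) + t4 σ (nn θ * w ^ 2)

/-- `Ψ(w,ρ) = ρ (w + w2) + t4(ν w w1)`. -/
def P2 (θ m w ρ : L) : L := ρ * (w + σ (σ w)) + t4 σ (nu σ θ m * w * σ w)

/-- `N4 = t4(ν)`. -/
def N4 (θ m : L) : L := t4 σ (nu σ θ m)

/-- `J = A + D N4`, `A = ν + ν2`. -/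
def JJ (θ m D : L) : L := nu σ θ m + σ (σ (nu σ θ m)) + D * N4 σ θ m

/-- `X1 = D D1 J + (n + n2) D² + (n1 + n3) D1²`. -/
def X1 (θ m D : L) : L :=
  D * σ D * JJ σ θ m D + (nn θ + σ (σ (nn θ))) * D ^ 2
    + (σ (nn θ) + σ (σ (σ (nn θ)))) * (σ D) ^ 2

/-- `X2 = J² + J + t4(n)`. -/
def X2 (θ m D : L) : L := JJ σ θ m D ^ 2 + JJ σ θ m D + t4 σ (nn θ)

/-- `R = (w + D D1) J + ν D D1 + ν2 D1² + ν1 D`. -/
def RR (θ m D w : L) : L :=
  (w + D * σ D) * JJ σ θ m D + nu σ θ m * (D * σ D) + σ (σ (nu σ θ m)) * (σ D) ^ 2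
    + σ (nu σ θ m) * D

/-- `X3 = R² + w² (J + t4 n) + w D D1 N4 + D1² ν2 + D² ν1 + n1 D² + n2 + n3 D1²`. -/
def X3 (θ m D w : L) : L :=
  RR σ θ m D w ^ 2 + w ^ 2 * (JJ σ θ m D + t4 σ (nn θ)) + w * (D * σ D) * N4 σ θ m
    + (σ D) ^ 2 * σ (σ (nu σ θ m)) + D ^ 2 * σ (nu σ θ m)
    + σ (nn θ) * D ^ 2 + σ (σ (nn θ)) + σ (σ (σ (nn θ))) * (σ D) ^ 2

/-- Membership in the space `V4` of pairs `(w, ρ)`: `w_4 = w`, `t4(w) = 0`, `ρ ∈ K`. -/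
def InV (z : L × K) : Prop := σ (σ (σ (σ z.1))) = z.1 ∧ t4 σ z.1 = 0

end defs

/-! ## Abstract lemmas on quadratic forms in characteristic 2 -/

/-- JOB Q4.  Number of zeros of `a1 x0² + p1 x0 x1 + b1 x1² + a2 x2² + p2 x2 x3 + b2 x3²`.
Proof.  Let `℘(K) = {c² + c}` (an additive subgroup of index 2).  For a binary form
`Q = a x² + p x y + b y²`, `p ≠ 0`, let `N(u)` be the number of `(x,y)` with `Q = u`.  If
`ab/p² ∈ ℘(K)` then `N(0) = 2q − 1`, `N(u) = q − 1` (`u ≠ 0`); otherwise `N(0) = 1`,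
`N(u) = q + 1`.  (Scale `y` by `p`: `Q = a x² + x y' + (b/p²) y'²`.  If `a = 0`: `Q = y'(x + b' y')`,
product of two independent linear forms.  If `a ≠ 0`: `a Q = X² + X y' + a b' y'²`, `X = a x`,
`b' = b/p²`; if `a b' = c² + c` it is `(X + c y')(X + (c+1) y')`; if `ab' ∉ ℘(K)` the form
`X² + X y' + a b' y'²` has only the zero `0` and is the norm form of the quadratic extension
field `K[t]/(t² + t + ab')`, whose norm map on the `q² − 1` nonzero elements is surjective onto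
the `q − 1` nonzero elements of `K`, with all fibres of size `q + 1`; alternatively: squaring
is bijective on `K`, so scaling shows that all nonzero values are taken equally often,
`(q² − 1)/(q − 1) = q + 1`.)
In the split case also: total `q² = N(0) + (q−1) N(1)`, all nonzero values equally often.
Then `Z = Σ_u N1(u) N2(u)`: split·split: `(2q−1)² + (q−1)³ = q³ + q² − q`;
nonsplit·nonsplit: `1 + (q−1)(q+1)² = q³ + q² − q`; mixed:
`(2q−1) + (q−1)(q−1)(q+1) = q³ − q² + q`.  The sum of two classes in `K/℘(K)` decides. -/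
def S2_Q4 : Prop := ∀ (K : Type) [Field K] [Finite K] (a1 b1 p1 a2 b2 p2 : K), (2 : K) = 0 →
  p1 ≠ 0 → p2 ≠ 0 →
  ((∃ c : K, a1 * b1 / p1 ^ 2 + a2 * b2 / p2 ^ 2 = c ^ 2 + c) →
    Nat.card {x : Fin 4 → K // a1 * x 0 ^ 2 + p1 * x 0 * x 1 + b1 * x 1 ^ 2
      + a2 * x 2 ^ 2 + p2 * x 2 * x 3 + b2 * x 3 ^ 2 = 0} + Nat.card K
      = Nat.card K ^ 3 + Nat.card K ^ 2) ∧
  ((¬ ∃ c : K, a1 * b1 / p1 ^ 2 + a2 * b2 / p2 ^ 2 = c ^ 2 + c) →
    Nat.card {x : Fin 4 → K // a1 * x 0 ^ 2 + p1 * x 0 * x 1 + b1 * x 1 ^ 2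
      + a2 * x 2 ^ 2 + p2 * x 2 * x 3 + b2 * x 3 ^ 2 = 0} + Nat.card K ^ 2
      = Nat.card K ^ 3 + Nat.card K)

/-- JOB B0.  `V` of dimension 4, `B` bilinear, `T` linear, `Q(v,ρ) = ρ² + ρ T(v) + B v v` on
`V × K`.  If no nonzero `(v,ρ)` is singular (in the radical of the polar form with `Q = 0`), then
`Q` has exactly `q⁴` zeros.
Proof.  `C(v,v') = B v v' + B v' v` is alternating (characteristic 2).  There is a nonzero
`r = (v0, ρ0)` with `T v0 = 0` and `ρ0 T v' + C(v0, v') = 0` for all `v'`: if `T = 0` take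
`(0,1)`; if `T v1 = 1`, the kernel `U` of `T` has dimension 3 and an alternating form in
dimension 3 has a radical vector `v0 ≠ 0` (basis `u1,u2,u3`: `C(u2,u3) u1 + C(u1,u3) u2 +
C(u1,u2) u3`, or `u1` if these vanish); put `ρ0 = C(v0, v1)`.  By hypothesis
`Q(r) = ρ0² + B v0 v0 ≠ 0`.  For `x ∈ V × K`, `a ∈ K`: `Q(x + a r) = Q(x) + a² Q(r)`, and squaring
is a bijection of `K`, so for every `x` exactly one `a` gives a zero: the map
`zeros × K → V × K`, `(x,a) ↦ x + a r` is a bijection, `#zeros = q⁵/q`. -/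
def S2_B0 : Prop := ∀ (K V : Type) [Field K] [Finite K] [AddCommGroup V] [Module K V]
  (B : LinearMap.BilinForm K V) (T : V →ₗ[K] K), (2 : K) = 0 → finrank K V = 4 →
  (∀ (v : V) (ρ : K), T v = 0 → (∀ v', ρ * T v' + B v v' + B v' v = 0) →
    ρ ^ 2 + B v v = 0 → v = 0 ∧ ρ = 0) →
  Nat.card {z : V × K // z.2 ^ 2 + z.2 * T z.1 + B z.1 z.1 = 0} = Nat.card K ^ 4

/-- JOB B1.  `Q(v,ρ) = ρ² + ρ T(v) + B v v` with a nonzero singular vector `(v0,ρ0)`, `T ≠ 0` and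
at least `q⁴` zeros.  Then `B v v = H(v)² + H(v) T(v) + Y(v) Z(v)` for linear functionals.
Proof.  `v0 ≠ 0` (else `ρ0² = 0`).  Write `g(v) = B v v`, `C(v,v') = B v v' + B v' v`.  Replacing
`g` by `g + H² + H T` (`H` linear) does not change the claim, the hypotheses or the number of
zeros (substitute `ρ → ρ + H(v)`).
Step 1: with `H(v0) = ρ0` we may assume `ρ0 = 0`: `T v0 = 0`, `C(v0,·) = 0`, `g(v0) = 0`; so `g`
and `T` come from `V3 = V/v0` (dimension 3).  Let `v1` with `T v1 = 1`, `U` = kernel of `T` in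
`V3`, dimension 2.
Step 2: with `H|U = C(v1,·)|U`, `H(v1) = 0` we may assume `C(v1, u) = 0` for `u ∈ U`; then
`g(a v1 + u) = a² γ + g_U(u)`, `g_U` a binary form, `g_U = α x² + β x y + δ y²`; the number of
zeros of `ρ² + ρ a + γ a² + g_U(x,y)` on `K⁴` is `≥ q³` (the total divided by `q`).
Step 3.  (i) `β = 0`: `g_U = ℓ²`, `ℓ = √α x + √δ y`; `γ a² + ℓ² = H² + H T + Y Z` with `H = ℓ`,
`Y = T`, `Z = γ T + ℓ`.  (ii) `β ≠ 0`: if `γ + αδ/β² ∉ ℘(K)` the number of zeros is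
`q³ − q² + q < q³` by `S2_Q4` (may be assumed as hypothesis), excluded; so
`γ + αδ/β² = c² + c`.  Replacing `H = c T` changes `γ` by `c² + c`, so assume `γ = αδ/β²`.
If `α = 0`: `γ = 0` and `g_U = y (β x + δ y)`: `H = 0`.  If `α ≠ 0`: then
`γ T² + α x² + β x y + δ y²`; choose `r` with `r² = α`, `X = r x`, `y' = (β/r) y`: it is
`γ T² + X² + X y' + γ y'²` (`δ y² = δ r²/β² y'² = αδ/β² y'²`), and with `H = X`,
`Y = T + y'`, `Z = γ (T + y') + X`: `H² + H T + Y Z = X² + X T + γ (T + y')² + X (T + y')` `=`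
`X² + X y' + γ T² + γ y'²`.  Done. -/
def S2_B1 : Prop := ∀ (K V : Type) [Field K] [Finite K] [AddCommGroup V] [Module K V]
  (B : LinearMap.BilinForm K V) (T : V →ₗ[K] K), (2 : K) = 0 → finrank K V = 4 → T ≠ 0 →
  ∀ (v0 : V) (ρ0 : K), (v0 ≠ 0 ∨ ρ0 ≠ 0) → T v0 = 0 →
  (∀ v', ρ0 * T v' + B v0 v' + B v' v0 = 0) → ρ0 ^ 2 + B v0 v0 = 0 →
  Nat.card K ^ 4 ≤ Nat.card {z : V × K // z.2 ^ 2 + z.2 * T z.1 + B z.1 z.1 = 0} →
  ∃ H Y Z : V →ₗ[K] K, ∀ v, B v v = H v ^ 2 + H v * T v + Y v * Z v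

/-! ## Basic facts (done by helper49, copies of project MR) -/

def S2_B8 : Prop := ∀ (K L : Type) [Field K] [Finite K] [Field L] [Finite L] [Algebra K L]
  (σ : L ≃ₐ[K] L), Cyc2 σ → ∀ x : L, σ (σ (σ (σ (σ (σ (σ (σ x))))))) = x

def S2_FX : Prop := ∀ (K L : Type) [Field K] [Finite K] [Field L] [Finite L] [Algebra K L]
  (σ : L ≃ₐ[K] L), Cyc2 σ → ∀ x : L, σ x = x → ∃ c : K, algebraMap K L c = x

def S2_K2 : Prop := ∀ (K L : Type) [Field K] [Finite K] [Field L] [Finite L] [Algebra K L]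
  (σ : L ≃ₐ[K] L), Cyc2 σ → ∀ x : L, σ (σ x) = x → σ x = x ^ Nat.card K

/-- independence of the eight conjugates -/
def S2_IND : Prop := ∀ (K L : Type) [Field K] [Finite K] [Field L] [Finite L] [Algebra K L]
  (σ : L ≃ₐ[K] L), Cyc2 σ → ∀ c0 c1 c2 c3 : L,
    (∀ x ∈ E4 σ, c0 * x + c1 * σ x + c2 * σ (σ x) + c3 * σ (σ (σ x)) = 0) →
    c0 = 0 ∧ c1 = 0 ∧ c2 = 0 ∧ c3 = 0

def S2_DIM : Prop := ∀ (K L : Type) [Field K] [Finite K] [Field L] [Finite L] [Algebra K L]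
  (σ : L ≃ₐ[K] L), Cyc2 σ → finrank K (E4 σ) = 4 ∧ finrank K (E2 σ) = 2

def S2_TR : Prop := ∀ (K L : Type) [Field K] [Finite K] [Field L] [Finite L] [Algebra K L]
  (σ : L ≃ₐ[K] L), Cyc2 σ → ∀ x : L,
    algebraMap K L (Algebra.trace K L x) = x + σ x + σ (σ x) + σ (σ (σ x)) +
      σ (σ (σ (σ x))) + σ (σ (σ (σ (σ x)))) + σ (σ (σ (σ (σ (σ x))))) +
      σ (σ (σ (σ (σ (σ (σ x))))))

/-! ## The forms on E4 -/

/-- JOB KV (uses `S2_FX`).  `K`-valuedness: `TT o w = t4(w)`, `BB w w = g_χ(w)`, and the polar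
form of `BB`.
Proof.  If `y : L` is fixed by `σ` then `y = algebraMap c` (`S2_FX`) and
`Tr(o y) = c Tr(o) = c`, so `algebraMap (Tr(o y)) = y`.  For `w ∈ E4` (`w4 = w`), `m4 = m`,
`χ2 = χ`, `n4 = n` (`θ4 = θ + 1`, so `n4 = (θ+1)² + θ + 1 = n`), `φ4 = φ`, `ν4 = ν`: `t4(w)`,
`g_χ(w)` and `bL w w' + bL w' w` are fixed by `σ`, and the last is
`t4(ν (w w1' + w' w1)) + χ (w w2' + w' w2) + χ1 (w1 w3' + w1' w3) = t4(w' (ν w1 + ν3 w3 + χ w2))`. -/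
def S2_KV : Prop := ∀ (K L : Type) [Field K] [Finite K] [Field L] [Finite L] [Algebra K L]
  (σ : L ≃ₐ[K] L), Cyc2 σ → ∀ θ m o χ : L, Algebra.trace K L o = 1 →
  σ (σ (σ (σ θ))) = θ + 1 → σ (σ (σ (σ m))) = m → σ (σ χ) = χ →
  ∀ w w' : E4 σ,
    algebraMap K L (TT σ o w) = t4 σ w ∧
    algebraMap K L (BB σ θ m o χ w w) = gL σ θ m χ w ∧
    algebraMap K L (BB σ θ m o χ w w' + BB σ θ m o χ w' w) =
      t4 σ (w' * (nu σ θ m * σ w + σ (σ (σ (nu σ θ m))) * σ (σ (σ (w : L))) + χ * σ (σ (w : L))))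

/-- JOB BC (uses `S2_KV`, `S2_DIM`, `S2_TR`).  The total number of zeros over all `χ ∈ E2` is `q⁶`.
Proof.  For `w ≠ 0` in `E4`, `w w2 ∈ E2∖0` and `χ ↦ g_χ(w) − g_0(w) = χ w w2 + χ1 w1 w3` is a
`K`-linear map from `E2` (dimension 2) to `K`, not zero: `E2` is a field of degree 2 over `K`
with conjugation `σ`, `χ ↦ χ + χ1` is not zero on it (`σ ≠ 1` on `E2`, as `E2` has dimension 2
and the fixed elements are `K`), apply it to `χ w w2`.  So for every `(w,ρ)`, `w ≠ 0`, exactly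
`q` elements `χ` satisfy `ρ² + ρ T(w) + g_χ(w) = 0`.  For `w = 0`: `ρ² = 0`, `ρ = 0`, all `q²`
elements `χ`.  Total `q (q⁴ − 1) q + q² = q⁶`. -/
def S2_BC : Prop := ∀ (K L : Type) [Field K] [Finite K] [Field L] [Finite L] [Algebra K L]
  (σ : L ≃ₐ[K] L), Cyc2 σ → ∀ θ m o : L, Algebra.trace K L o = 1 →
  σ (σ (σ (σ θ))) = θ + 1 → σ (σ (σ (σ m))) = m →
  Nat.card {z : E2 σ × (E4 σ × K) //
    z.2.2 ^ 2 + z.2.2 * TT σ o z.2.1 + BB σ θ m o z.1 z.2.1 z.2.1 = 0} = Nat.card K ^ 6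

/-- JOB E (uses `S2_KV`, `S2_IND`, `S2_TR`, `S2_B8`).  A representation of `g_χ` gives a solution.
Proof.  Duality: every linear functional `ℓ` on `E4` is `w ↦ Tr(b w)` with `b : L` (extend to `L`,
`traceForm_nondegenerate`), and for `w ∈ E4`: `algebraMap (Tr(b w)) = t4((b + b4) w)` (`S2_TR`,
`w4 = w`), `b + b4 ∈ E4` (`b8 = b`).  So `H(w) = t4(h w)`, `Y(w) = t4(y w)`, `Z(w) = t4(z w)` in
`L`, with `h, y, z ∈ E4`, and `g_χ(w) = t4(hw)² + t4(hw) t4(w) + t4(yw) t4(zw)` for `w ∈ E4`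
(`S2_KV`).  Expanding (characteristic 2, `w4 = w`): the right side is
`t4((h² + h + yz) w²) + Σ_{i<j} (h_i + h_j + y_i z_j + y_j z_i) w_i w_j` over `0 ≤ i < j ≤ 3`, the
left side is `t4(n w²) + t4(ν w w1) + χ w w2 + χ1 w1 w3`.  So with `u = h² + h + yz − n`,
`v = h + h1 + y z1 + y1 z − ν` (`v3 = h3 + h + y3 z + y z3 − ν3`), `s = h + h2 + y z2 + y2 z − χ`:
`t4(u w²) + v w w1 + v1 w1 w2 + v2 w2 w3 + v3 w3 w + s w w2 + s1 w1 w3 = 0` on `E4`.  Polarize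
(`w → w + w'`): `Σ_i w'_i (v_i w_{i+1} + v_{i−1} w_{i−1} + s_i w_{i+2}) = 0`; by `S2_IND` in `w'`
the coefficient of `w'` is zero: `v w1 + v3 w3 + s w2 = 0` for all `w ∈ E4`; by `S2_IND` again
`v = 0` (and `s = 0`).  Then `t4(u w²) = 0`; every element of `E4` is a square of an element of
`E4` (squaring is injective on the finite set `E4`), so `t4(u w) = 0` for `w ∈ E4` and `u = 0`. -/
def S2_E : Prop := ∀ (K L : Type) [Field K] [Finite K] [Field L] [Finite L] [Algebra K L]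
  (σ : L ≃ₐ[K] L), Cyc2 σ → ∀ θ m o χ : L, Algebra.trace K L o = 1 →
  σ (σ (σ (σ θ))) = θ + 1 → σ (σ (σ (σ m))) = m → σ (σ χ) = χ →
  (∃ H Y Z : E4 σ →ₗ[K] K, ∀ w, BB σ θ m o χ w w = H w ^ 2 + H w * TT σ o w + Y w * Z w) →
  Sol2 σ θ m

/-- JOB F.  A solution gives `λ` with `λ1 ≠ λ` and `(λ1−λ)(μ1−μ) = N (μ1−λ)(λ1−μ)`, `μ = λ4`.
Proof.  Put `x = θ + h`: `x4 = x + 1`, `x² + x = y z`, and since `x + x1 = φ + h + h1`:
`1 + x + x1 + y z1 + y1 z = m`.  If `y = z = 0` then `x² + x = 0`, `x ∈ {0,1}`, `x4 = x`,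
contradiction.  By symmetry (swap `y, z`) let `z ≠ 0`, `λ = x/z`; `z4 = z`, so `μ = λ4 = (x+1)/z`,
`λ + μ = 1/z ≠ 0` (so `λ1 ≠ λ`).  `S1 = (λ1+λ)(μ1+μ) = (y1 z + y z1 + x + x1)/(z z1)
= (1+m)/(z z1)` (use `x² + x = yz` and its conjugate), `S2 = (μ1+λ)(λ1+μ)`,
`S1 + S2 = (λ+μ)(λ1+μ1) = 1/(z z1)`, so `S2 = m/(z z1)`, `S1 = N S2` as `m (1+N) = 1`. -/
def S2_F : Prop := ∀ (K L : Type) [Field K] [Finite K] [Field L] [Finite L] [Algebra K L]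
  (σ : L ≃ₐ[K] L), Cyc2 σ → ∀ θ m N : L, σ (σ (σ (σ θ))) = θ + 1 → σ (σ (σ (σ m))) = m →
  m * (1 + N) = 1 → Sol2 σ θ m → ∃ x : L, σ x ≠ x ∧ Rel σ N x

/-! ## The pencil -/

/-- JOB CHI.  From a common zero of `Ψ` and `G` to a singular vector of some `g_χ`.
Proof.  Let `χ = (ν w1 + ν3 w3 + ρ)/w2`.  `χ2 = (ν2 w3 + ν1 w1 + ρ)/w` (`w4 = w`, `ν4 = ν`,
`ρ` fixed).  `χ2 = χ` is `w (ν w1 + ν3 w3 + ρ) = w2 (ν2 w3 + ν1 w1 + ρ)`, which is `Ψ = 0`: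
`Ψ = ρ (w + w2) + ν w w1 + ν1 w1 w2 + ν2 w2 w3 + ν3 w3 w`.  Second: `χ w w2 = w (ν w1 + ν3 w3 + ρ)`
and its conjugate `χ1 w1 w3 = w1 (ν1 w2 + ν w + ρ)`, so
`ρ² + g_χ(w) = ρ² + t4(n w²) + t4(ν w w1) + ν3 w w3 + ν1 w1 w2 + ρ (w + w1) = G(w,ρ) = 0`. -/
def S2_CHI : Prop := ∀ (K L : Type) [Field K] [Finite K] [Field L] [Finite L] [Algebra K L]
  (σ : L ≃ₐ[K] L), Cyc2 σ → ∀ θ m w : L, ∀ ρ : K, σ (σ (σ (σ θ))) = θ + 1 →
  σ (σ (σ (σ m))) = m → w ≠ 0 → InV σ (w, ρ) → P2 σ θ m w (algebraMap K L ρ) = 0 →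
  G2 σ θ m w (algebraMap K L ρ) = 0 →
  ∃ χ : L, σ (σ χ) = χ ∧
    nu σ θ m * σ w + σ (σ (σ (nu σ θ m))) * σ (σ (σ w)) + χ * σ (σ w) + algebraMap K L ρ = 0 ∧
    algebraMap K L ρ ^ 2 + gL σ θ m χ w = 0

/-- JOB TNE (uses `S2_FX`).  `t4(n) = t ∈ K` and `t` is not of the form `c² + c`, `c ∈ K`.
Also: `A = ν + ν2`, `N4` facts.
Proof.  `f = φ + φ2`: `φ_4 = φ`, `φ + φ1 + φ2 + φ3 = θ + θ4 = 1`, so `f2 = f`, `f + f1 = 1`;
`t4(n) = f² + f` (`n + n1 = φ² + φ`, `n + n2 = (φ+φ1)² + (φ+φ1)`,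
`t4(n) = (n + n2) + (n1 + n3) = (φ+φ2)² + (φ+φ2)`).  It is fixed by `σ`.  If `t = c² + c`,
`c ∈ K`, then `(f + c)² + (f + c) = 0`, `f + c ∈ {0,1}`, `f` fixed by `σ`, contradiction. -/
def S2_TNE : Prop := ∀ (K L : Type) [Field K] [Finite K] [Field L] [Finite L] [Algebra K L]
  (σ : L ≃ₐ[K] L), Cyc2 σ → ∀ θ : L, σ (σ (σ (σ θ))) = θ + 1 →
  ∃ t : K, algebraMap K L t = t4 σ (nn θ) ∧ ∀ c : K, t ≠ c ^ 2 + c

/-- JOB TOR (uses `S2_FX`, `S2_K2`, `S2_DIM`, `S2_B8`).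
Let `c ≠ 0`, `c2 = c`, and `t ∈ K` not of the form `Y² + Y`.  Then there is `D` with `D2 = D`,
`D + D1 = 1` and `t + c/D + c1/D1 = Y² + Y` for some `Y ∈ K`.
Proof.  `q = 2^k`; `T(y) = Σ_{i<k} y^(2^i)` maps `K` to `{0,1}`, is additive, and its kernel is
`{Y² + Y}` (index 2).  `T(t) = 1`; so it is enough to find `D` with `T(c/D + c1/D1) = 1`.  Suppose
`T(c/D + c1/D1) = 0` for all `D`.  For `z` with `z^(q+1) = 1`, `z ≠ 1`, in `L` (then `z_2 = z`,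
`z_1 = z^q = 1/z`), `D = 1/(1+z)` satisfies `D + D1 = 1/(1+z) + z/(1+z) = 1`, and
`c/D + c1/D1 = c (1+z) + c1 (1 + 1/z)`.  So `T(c z + c1/z) = T(c + c1) =: ε` for all `q + 1`
elements `z` with `z^(q+1) = 1` (also `z = 1`).  Multiply by `z^(q/2)`: the polynomial
`Σ_{i<k} (c^(2^i) X^(q/2 + 2^i) + c1^(2^i) X^(q/2 − 2^i)) + ε X^(q/2)` has degree `≤ q`, the
coefficient of `X^q` is `c^(q/2) ≠ 0` (only from `i = k−1`), and has `q + 1` roots: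
contradiction.  (`q + 1 ∣ q² − 1 ∣ q⁸ − 1`, so `L` has `q + 1` roots of `z^(q+1) = 1`;
`z_2 = z` since `z^(q²) = z`; `z_1 = z^q` by `S2_K2`.) -/
def S2_TOR : Prop := ∀ (K L : Type) [Field K] [Finite K] [Field L] [Finite L] [Algebra K L]
  (σ : L ≃ₐ[K] L), Cyc2 σ → ∀ c : L, c ≠ 0 → σ (σ c) = c → ∀ t : K, (∀ Y : K, t ≠ Y ^ 2 + Y) →
  ∃ D : L, σ (σ D) = D ∧ D + σ D = 1 ∧ ∃ Y : K,
    algebraMap K L t + c / D + σ c / σ D = algebraMap K L (Y ^ 2 + Y)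

/-- JOB PSI (uses `S2_FX`, `S2_DIM`).  `Ψ` has exactly `q³ − q² + q` zeros in `V4` if `N4 ≠ 0`.
Proof.  `E4` has `q⁴` elements, `t4 : E4 → K` is onto (`t4` is not zero on `E4`: `t4(φ) = 1`), so
there are `q³` elements `w` with `t4(w) = 0`, and those with `w + w2 = 0` are the `q²` elements
of `E2` (for which `t4(w) = 2(w + w1) = 0` holds).  If `ω = w + w2 ≠ 0` (`ω ∈ K` because
`w + w2 = w1 + w3`), then `Ψ = 0` has exactly one solution `ρ = t4(ν w w1)/ω ∈ K`.  If `ω = 0`,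
`Ψ = w w1 (ν + ν1 + ν2 + ν3) = N4 w w1`, so `w = 0` and `ρ` is arbitrary: `q` solutions. -/
def S2_PSI : Prop := ∀ (K L : Type) [Field K] [Finite K] [Field L] [Finite L] [Algebra K L]
  (σ : L ≃ₐ[K] L), Cyc2 σ → ∀ θ m : L, σ (σ (σ (σ θ))) = θ + 1 → σ (σ (σ (σ m))) = m →
  N4 σ θ m ≠ 0 →
  Nat.card {z : L × K // InV σ z ∧ P2 σ θ m z.1 (algebraMap K L z.2) = 0} + Nat.card K ^ 2
    = Nat.card K ^ 3 + Nat.card K

/-- JOB PEN (uses `S2_FX`, `S2_DIM`).  Counting over the pencil.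
Proof.  `V4 = {z : InV σ z}` has `q⁴` elements (`q³` elements `w ∈ E4` with `t4(w) = 0`, since
`t4(φ) = 1` with `φ = phi σ θ ∈ E4`; times `q`).  For `z = (w,ρ) ∈ V4`: `Ψ` is fixed by `σ`
(`w + w2 = w1 + w3`, `ν4 = ν`), and `G + G1 = Ψ`
(`G1 = ρ² + ρ(w1+w2) + ν1 w1 w2 + ν3 w3 w + t4(n w²)`).  There are exactly `q` elements `D` with
`D2 = D`, `D + D1 = 1` (a coset of `K`: one exists because `x ↦ x + x1` maps `E2` onto `K`;
or `D = φ + φ2`).  A nonzero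
`z ∈ V4` with `Ψ(z) = 0` has `G(z) ≠ 0` (no common zeros), so it is a zero of `Ψ` but of no
`G + DΨ`; if `Ψ(z) ≠ 0` it is a zero of `G + DΨ` exactly for `D = G/Ψ` (characteristic 2), and
this `D` satisfies `D + D1 = (G + G1)/Ψ = 1`, `D2 = D`.  So
`(Z(Ψ) − 1) + Σ_D (Z(G + DΨ) − 1) = q⁴ − 1 = (q+1)(q³ − q² + q − 1)`; every one of the `q + 1`
terms is at least `q³ − q² + q − 1`, so all are equal to it. -/
def S2_PEN : Prop := ∀ (K L : Type) [Field K] [Finite K] [Field L] [Finite L] [Algebra K L]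
  (σ : L ≃ₐ[K] L), Cyc2 σ → ∀ θ m : L, σ (σ (σ (σ θ))) = θ + 1 → σ (σ (σ (σ m))) = m →
  (∀ z : L × K, InV σ z → P2 σ θ m z.1 (algebraMap K L z.2) = 0 →
    G2 σ θ m z.1 (algebraMap K L z.2) = 0 → z = 0) →
  Nat.card {z : L × K // InV σ z ∧ P2 σ θ m z.1 (algebraMap K L z.2) = 0} + Nat.card K ^ 2
    = Nat.card K ^ 3 + Nat.card K →
  (∀ D : L, σ (σ D) = D → D + σ D = 1 → Nat.card K ^ 3 + Nat.card K ≤
    Nat.card {z : L × K // InV σ z ∧ G2 σ θ m z.1 (algebraMap K L z.2)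
      + D * P2 σ θ m z.1 (algebraMap K L z.2) = 0} + Nat.card K ^ 2) →
  ∀ D : L, σ (σ D) = D → D + σ D = 1 →
    Nat.card {z : L × K // InV σ z ∧ G2 σ θ m z.1 (algebraMap K L z.2)
      + D * P2 σ θ m z.1 (algebraMap K L z.2) = 0} + Nat.card K ^ 2
      = Nat.card K ^ 3 + Nat.card K

/-- JOB MEM (uses `S2_FX`).  `D2 = D`, `D + D1 = 1`, `w4 = w`, `w + w1 = D`, `N4 ≠ 0`.
In the basis `(0,1), (D,0), (1,J), (w,R)` of `V4` the form `G + DΨ` is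
`a² + a b + X1 b² + X2 c² + p c d + X3 d²`, `p = N4 D D1`.
Proof.  `w1 = w + D`, `w2 = w + 1`, `w3 = w + D1`, `D1 = D + 1`.  `X1, X2, X3, J, R, p` are fixed by
`σ` (`J1 = A1 + D1 N4 = A + N4 + (D+1) N4 = J`, as `A + A1 = N4`; use
`n1 = n + φ² + φ`, `n2 = n1 + φ1² + φ1`, `n3 = n2 + φ2² + φ2`, `φ3 = 1 + φ + φ1 + φ2`,
`ν_i = 1 + φ_i + m_i`; everything becomes an identity in the atoms `θ, φ, φ1, φ2, m, m1, m2, m3,
D, w`), so they come from `K`; `p ≠ 0` since `D, D1 ≠ 0` (`D ∈ {0,1}` would give `D1 = D`).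
The map `(a,b,c,d) ↦ (bD + c + dw, a + cJ + dR)` from `K⁴` to `V4` is a bijection:
for `(w',ρ') ∈ V4` put `d = w' + w'2` (in `K`, `w'+w'2 = w'1+w'3`), `u = w' + d w`, `u2 = u`,
`b = u + u1 ∈ K`, `c = u + bD ∈ K`, `a = ρ' + cJ + dR`; uniqueness is clear from these formulas
(`w + w2 = 1`, `D + D2 = 0`, `D + D1 = 1`).  The value of `G + DΨ` at the image of `(a,b,c,d)` is
the form above: an identity in characteristic 2 in the atoms listed and `a,b,c,d`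
(checked numerically for q = 2, 4). -/
def S2_MEM : Prop := ∀ (K L : Type) [Field K] [Finite K] [Field L] [Finite L] [Algebra K L]
  (σ : L ≃ₐ[K] L), Cyc2 σ → ∀ θ m D w : L, σ (σ (σ (σ θ))) = θ + 1 → σ (σ (σ (σ m))) = m →
  N4 σ θ m ≠ 0 → σ (σ D) = D → D + σ D = 1 → σ (σ (σ (σ w))) = w → w + σ w = D →
  ∃ x1 x2 x3 p : K, algebraMap K L x1 = X1 σ θ m D ∧ algebraMap K L x2 = X2 σ θ m D ∧
    algebraMap K L x3 = X3 σ θ m D w ∧ algebraMap K L p = N4 σ θ m * (D * σ D) ∧ p ≠ 0 ∧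
    Nat.card {z : L × K // InV σ z ∧ G2 σ θ m z.1 (algebraMap K L z.2)
      + D * P2 σ θ m z.1 (algebraMap K L z.2) = 0} =
    Nat.card {x : Fin 4 → K // 1 * x 0 ^ 2 + 1 * x 0 * x 1 + x1 * x 1 ^ 2
      + x2 * x 2 ^ 2 + p * x 2 * x 3 + x3 * x 3 ^ 2 = 0}

/-- JOB ARF (uses `S2_FX`).  The Arf invariant.  `m = b²`, `b4 = b`, `r_i = b_i² + b_i`
(so `r_i² = m_i² + m_i`), `c = r0 r2/N4`, `N4 ≠ 0`.
Claim: `X1 + X2 X3/p² = t4(n) + c/D + c1/D1 + Y² + Y` with `Y ∈ K`, `p = N4 D D1`.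
Proof.  Notation `η = D D1 = D² + D`, `μ_i = r_i² = m_i² + m_i`, `t = t4(n) = f² + f`, `f = φ + φ2`,
`A = ν + ν2`, `J = A + D N4 = A1 + D1 N4`, `w1 = w + D`.  Put
`Y = r2 (r0 + r2)/(N4 D) + r1 (r1 + r3)/(N4 D1) + X2 w/p + J D + φ1 + φ2 + m1 + m2 + f`.
(a) `X3 = w² X2 + w η N4 + η² D² N4² + μ1 D² + μ2 D1²`: since `R = (w + η) J + ...`,
`R² + w²(J + t) = w² X2 + η² J² + ν² η² + ν2² D1⁴ + ν1² D²`, and
`n1 D² + n2 + n3 D1² = (φ1² + φ1) D² + (φ2² + φ2) D1²`, `ν1² + ν1 = φ1² + φ1 + μ1`,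
`ν2² + ν2 = φ2² + φ2 + μ2`, `D1⁴ + D1² = η²`, `J + A = D N4`, `A = ν + ν2`.
(b) So `X2 X3/p² = (X2 w/p)² + X2 w/p + X2 D² + X2 (μ1/D1² + μ2/D²)/N4²`.
(c) `X2 = μ0 + μ2 + N4² D² + N4 D = μ1 + μ3 + N4² D1² + N4 D1` (`A + f = m + m2`,
`A² + A + t = (m + m2)² + (m + m2)`; same with `A1`).  So
`X2 μ2/(N4² D²) = μ2 (μ0 + μ2)/(N4 D)² + μ2 + μ2/(N4 D)`, and with `s = r2 (r0 + r2)`,
`s² = μ2 (μ0 + μ2)`: `= (s/(N4 D))² + s/(N4 D) + μ2 + (s + μ2)/(N4 D)`, `s + μ2 = r0 r2`.  Same for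
`μ1` and `D1`.
(d) `X1 + X2 D² = (J D)² + J D + n1 + n3` (`η J + (J² + J + t) D² = (JD)² + JD + t D²`,
`t = (n + n2) + (n1 + n3)`, `D² + D1² = 1`), and
`n1 + n3 + μ1 + μ2 = (φ1+φ2)² + (φ1+φ2) + (m1+m2)² + (m1+m2)`, `t = f² + f`.
Together: `X1 + X2X3/p² + t + c/D + c1/D1 = Y² + Y` (`c = r0 r2/N4`, `c1 = r1 r3/N4`).
(e) `Y1 = Y`: the two first terms of `Y1` are `r3 (r1 + r3)/(N4 D1) + r2 (r2 + r0)/(N4 D)`, so
`Y + Y1 = (r1+r3)²/(N4 D1) + X2 D/p + J + f1 + m1 + m3 + f + f1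
= (μ1 + μ3 + X2)/(N4 D1) + J + f1 + m1 + m3 + 1 = (N4 D1 + 1) + J + f1 + m1 + m3 + 1 = 0`
because `J = A1 + D1 N4` and `A1 = f1 + m1 + m3`.  (Also `φ1 + φ2 + φ2 + φ3 = f1`,
`m1 + m2 + m2 + m3 = m1 + m3`, `JD + JD1 = J`, `f + f1 = 1`.) -/
def S2_ARF : Prop := ∀ (K L : Type) [Field K] [Finite K] [Field L] [Finite L] [Algebra K L]
  (σ : L ≃ₐ[K] L), Cyc2 σ → ∀ θ b D w : L, σ (σ (σ (σ θ))) = θ + 1 → σ (σ (σ (σ b))) = b →
  N4 σ θ (b ^ 2) ≠ 0 → σ (σ D) = D → D + σ D = 1 → σ (σ (σ (σ w))) = w → w + σ w = D →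
  ∃ Y : K, X1 σ θ (b ^ 2) D + X2 σ θ (b ^ 2) D * X3 σ θ (b ^ 2) D w
      / (N4 σ θ (b ^ 2) * (D * σ D)) ^ 2 =
    t4 σ (nn θ) + (b ^ 2 + b) * σ (σ (b ^ 2 + b)) / N4 σ θ (b ^ 2) / D
      + σ ((b ^ 2 + b) * σ (σ (b ^ 2 + b)) / N4 σ θ (b ^ 2)) / σ D
      + algebraMap K L (Y ^ 2 + Y)

/-- JOB EXW (uses `S2_DIM`, `S2_FX`).  For `D` with `D2 = D`, `D + D1 = 1` there is `w` with
`w4 = w`, `w + w1 = D`.
Proof.  `t4(D) = 2(D + D1) = 0`.  The `K`-linear map `w ↦ w + w1` from `E4` to itself has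
kernel `K` (dimension 1), so its image has dimension 3 and lies in `{v ∈ E4 : t4(v) = 0}`, which
has dimension 3 (`t4(φ) = 1`, so `t4` is not zero on `E4`); so the image is all of it. -/
def S2_EXW : Prop := ∀ (K L : Type) [Field K] [Finite K] [Field L] [Finite L] [Algebra K L]
  (σ : L ≃ₐ[K] L), Cyc2 σ → ∀ θ D : L, σ (σ (σ (σ θ))) = θ + 1 → σ (σ D) = D → D + σ D = 1 →
  ∃ w : L, σ (σ (σ (σ w))) = w ∧ w + σ w = D

/-! ## The code -/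

/-- JOB G2 (copy of `Pool.Agent.Q186.MR.G` for `Cyc2`; uses `S2_B8`, `S2_FX`, `S2_IND`).
If `N = δ δ4` and some `x` with `x1 ≠ x` satisfies `Rel σ N x`, or if `N = 1`, then some code word
`(a,b) ≠ (0,0)` kills two independent vectors.  Proof: docstring of `Q49.MR.S_G`, part (i), and of
`Q49.MR.S_HIL` (both do not use the characteristic). -/
def S2_G : Prop := ∀ (K L : Type) [Field K] [Finite K] [Field L] [Finite L] [Algebra K L]
  (σ : L ≃ₐ[K] L), Cyc2 σ → ∀ δ : L, δ ≠ 0 →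
  ((∃ x : L, σ x ≠ x ∧ Rel σ (δ * σ (σ (σ (σ δ)))) x) ∨ δ * σ (σ (σ (σ δ))) = 1 →
    ∃ a b : L, (a ≠ 0 ∨ b ≠ 0) ∧ ∃ x y : L, LinearIndependent K ![x, y] ∧
      a * x + b * (σ x + δ * σ (σ (σ (σ (σ x))))) = 0 ∧
      a * y + b * (σ y + δ * σ (σ (σ (σ (σ y))))) = 0)

/-- JOB COD2 (copy of `Pool.Agent.Q259.MR_COD` for `Cyc2`; only this direction).
If the code is MRD then no code word `(a,b) ≠ (0,0)` kills two independent vectors.
Proof: docstring of `Q49.MR.S_COD` (does not use the characteristic; `σ⁴ x = x^(q⁴)` as in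
`Q49.MR.tau` of `Pool.Agent.Q49.MR.BAS1`). -/
def S2_COD : Prop := ∀ (K L : Type) [Field K] [Finite K] [Field L] [Finite L] [Algebra K L]
  (σ : L ≃ₐ[K] L), Cyc2 σ → ∀ s : ℕ, (∀ x, σ x = x ^ (Nat.card K ^ s)) → ∀ δ : L,
  IsMRD (codeC K L s δ) → ∀ a b : L, (a ≠ 0 ∨ b ≠ 0) → ∀ x y : L,
      a * x + b * (σ x + δ * σ (σ (σ (σ (σ x))))) = 0 →
      a * y + b * (σ y + δ * σ (σ (σ (σ (σ y))))) = 0 → ¬ LinearIndependent K ![x, y]

end Q49.MR2
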