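import Mathlib
import Pool.Agent.Q49.MR2.Stm

/-! Basic facts of project MR2 (copies of `Q49.MR.BAS1`, `Q96.MR_DIM`, `Q121.MR_TR` in
characteristic 2). -/

set_option autoImplicit false

open Module

namespace Q49.MR2

open Q49.MR (Rel codeC IsMRD)

section
variable {K L : Type} [Field K] [Finite K] [Field L] [Finite L] [Algebra K L] {σ : L ≃ₐ[K] L}

theorem cardL (h : Cyc2 σ) : Nat.card L = Nat.card K ^ 8 := by
  rw [Module.natCard_eq_pow_finrank (K := K), h.rank]

theorem pow8 (h : Cyc2 σ) (x : L) : x ^ (Nat.card K ^ 8) = x := by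
  haveI := Fintype.ofFinite L
  rw [← cardL h, Nat.card_eq_fintype_card]; exact FiniteField.pow_card x

theorem pow8m (h : Cyc2 σ) (x : L) (m r : ℕ) :
    x ^ (Nat.card K ^ (8 * m + r)) = x ^ (Nat.card K ^ r) := by
  induction m with
  | zero => simp
  | succ m ih =>
    have : 8 * (m + 1) + r = 8 + (8 * m + r) := by ring
    rw [this, pow_add, pow_mul, pow8 h, ih]

omit [Finite K] [Finite L] in
theorem iter_pow {s : ℕ} (hs : ∀ x : L, σ x = x ^ (Nat.card K ^ s)) (n : ℕ) (x : L) :
    (σ^[n]) x = x ^ (Nat.card K ^ (s * n)) := by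
  induction n with
  | zero => simp
  | succ n ih =>
    rw [Function.iterate_succ_apply', ih, hs, ← pow_mul, ← pow_add, mul_add, mul_one]

theorem odd_sq {s : ℕ} (hs : Odd s) : ∃ m, s * s = 8 * m + 1 := by
  have h1 : s * s % 8 = 1 := by
    have h2 : s % 2 = 1 := Nat.odd_iff.1 hs
    have h3 : s % 8 = 1 ∨ s % 8 = 3 ∨ s % 8 = 5 ∨ s % 8 = 7 := by omega
    rw [Nat.mul_mod]
    rcases h3 with h | h | h | h <;> rw [h]
  exact ⟨s * s / 8, by omega⟩

theorem b8 : S2_B8 := by
  intro K L _ _ _ _ _ σ h x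
  obtain ⟨s, hs, hp⟩ := h.pow
  have h1 := iter_pow hp 8 x
  have h2 := pow8m h x s 0
  have h3 : s * 8 = 8 * s + 0 := by ring
  rw [h3, h2, pow_zero, pow_one] at h1
  simpa [Function.iterate_succ_apply'] using h1

theorem tau (h : Cyc2 σ) (x : L) : σ (σ (σ (σ x))) = x ^ (Nat.card K ^ 4) := by
  obtain ⟨s, hs, hp⟩ := h.pow
  have h1 := iter_pow hp 4 x
  obtain ⟨t, rfl⟩ := hs
  have h3 : (2 * t + 1) * 4 = 8 * t + 4 := by ring
  rw [h3, pow8m h] at h1
  simpa [Function.iterate_succ_apply'] using h1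

omit [Finite L] in
theorem mem_of_pow {x : L} (hx : x ^ Nat.card K = x) : ∃ c : K, algebraMap K L c = x := by
  classical
  haveI := Fintype.ofFinite K
  by_contra hne
  push Not at hne
  have hcard : 1 < Fintype.card K := Fintype.one_lt_card
  have hq : Nat.card K = Fintype.card K := Nat.card_eq_fintype_card
  set S : Finset L := insert x (Finset.univ.image (algebraMap K L)) with hS
  have hSc : S.card = Fintype.card K + 1 := by
    rw [hS, Finset.card_insert_of_notMem, Finset.card_image_of_injective _ (algebraMap K L).injective,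
      Finset.card_univ]
    intro h
    obtain ⟨c, -, hc⟩ := Finset.mem_image.1 h
    exact hne c hc
  have hP : (Polynomial.X ^ Fintype.card K - Polynomial.X : Polynomial L) ≠ 0 :=
    FiniteField.X_pow_card_sub_X_ne_zero L hcard
  have h1 : S.card ≤ (Polynomial.X ^ Fintype.card K - Polynomial.X : Polynomial L).natDegree := by
    refine Polynomial.card_le_degree_of_subset_roots (p := Polynomial.X ^ Fintype.card K - Polynomial.X) ?_
    intro y hy
    rw [Polynomial.mem_roots hP, Polynomial.IsRoot, Polynomial.eval_sub, Polynomial.eval_pow,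
      Polynomial.eval_X, sub_eq_zero]
    have hy' : y ∈ S := hy
    rw [hS, Finset.mem_insert] at hy'
    rcases hy' with rfl | hy'
    · rw [← hq]; exact hx
    · obtain ⟨c, -, rfl⟩ := Finset.mem_image.1 hy'
      rw [← map_pow, FiniteField.pow_card]
  rw [hSc, FiniteField.X_pow_card_sub_X_natDegree_eq L hcard] at h1
  omega

theorem fx : S2_FX := by
  intro K L _ _ _ _ _ σ h x hx
  obtain ⟨s, hs, hp⟩ := h.pow
  apply mem_of_pow
  have h1 := iter_pow hp s x
  obtain ⟨m, hm⟩ := odd_sq hs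
  rw [hm, pow8m h, pow_one, Function.iterate_fixed hx] at h1
  exact h1.symm

theorem k2 : S2_K2 := by
  intro K L _ _ _ _ _ σ h x hx
  obtain ⟨s, hs, hp⟩ := h.pow
  have h1 := iter_pow hp s x
  obtain ⟨m, hm⟩ := odd_sq hs
  rw [hm, pow8m h, pow_one] at h1
  rw [← h1]
  obtain ⟨t, rfl⟩ := hs
  have h2 : ∀ n, (σ^[2 * n]) x = x := by
    intro n
    induction n with
    | zero => simp
    | succ n ih =>
      rw [mul_add, Function.iterate_add_apply]
      simp only [mul_one]
      have : (σ^[2]) x = x := by simpa [Function.iterate_succ_apply'] using hx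
      rw [this, ih]
  have h3 : (σ^[2 * t + 1]) x = σ ((σ^[2 * t]) x) := Function.iterate_succ_apply' σ (2 * t) x
  rw [h3, h2]

end

/-- `σ` has order 8. -/
theorem order {K L : Type} [Field K] [Finite K] [Field L] [Finite L] [Algebra K L]
    (σ : L ≃ₐ[K] L) (h : Cyc2 σ) : orderOf σ = 8 := by
  have := Fintype.ofFinite K
  obtain ⟨s, hs, hp⟩ := h.pow
  have h1 : σ = (FiniteField.frobeniusAlgEquivOfAlgebraic K L) ^ s := by
    ext x
    rw [AlgEquiv.coe_pow, FiniteField.coe_frobeniusAlgEquivOfAlgebraic_iterate, hp x,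
      Fintype.card_eq_nat_card]
  rw [h1, orderOf_pow, FiniteField.orderOf_frobeniusAlgEquivOfAlgebraic, h.rank]
  have h2 : Nat.gcd 8 s = 1 := by
    have h3 : Nat.Coprime 2 s := (Nat.coprime_two_left).2 hs
    exact Nat.Coprime.pow_left 3 h3
  rw [h2]

/-- Independence of the eight automorphisms. -/
theorem indep8 {K L : Type} [Field K] [Finite K] [Field L] [Finite L] [Algebra K L]
    (σ : L ≃ₐ[K] L) (h : Cyc2 σ) (c : Fin 8 → L)
    (hc : ∀ y : L, ∑ i, c i * (σ ^ (i : ℕ)) y = 0) : ∀ i, c i = 0 := by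
  have hinj : Function.Injective fun i : Fin 8 => (((σ ^ (i : ℕ) : L ≃ₐ[K] L) : L →* L)) := by
    intro i j hij
    have h1 : (σ ^ (i : ℕ)) = (σ ^ (j : ℕ)) := by
      ext x
      exact DFunLike.congr_fun hij x
    have h2 := pow_inj_mod.1 h1
    rw [order σ h, Nat.mod_eq_of_lt i.2, Nat.mod_eq_of_lt j.2] at h2
    exact Fin.ext h2
  have hl := (linearIndependent_monoidHom L L).comp _ hinj
  rw [Fintype.linearIndependent_iff] at hl
  apply hl
  funext y
  have := hc y
  simpa [Finset.sum_apply, Pi.smul_apply, smul_eq_mul] using this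

/-- The same, written out. -/
theorem indep8' {K L : Type} [Field K] [Finite K] [Field L] [Finite L] [Algebra K L]
    (σ : L ≃ₐ[K] L) (h : Cyc2 σ) (c0 c1 c2 c3 c4 c5 c6 c7 : L)
    (hc : ∀ y : L, c0 * y + c1 * σ y + c2 * σ (σ y) + c3 * σ (σ (σ y)) +
      c4 * σ (σ (σ (σ y))) + c5 * σ (σ (σ (σ (σ y)))) + c6 * σ (σ (σ (σ (σ (σ y))))) +
      c7 * σ (σ (σ (σ (σ (σ (σ y)))))) = 0) :
    c0 = 0 ∧ c1 = 0 ∧ c2 = 0 ∧ c3 = 0 ∧ c4 = 0 ∧ c5 = 0 ∧ c6 = 0 ∧ c7 = 0 := by
  have h1 := indep8 σ h ![c0, c1, c2, c3, c4, c5, c6, c7] (by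
    intro y
    rw [← hc y]
    simp [Fin.sum_univ_eight])
  exact ⟨h1 0, h1 1, h1 2, h1 3, h1 4, h1 5, h1 6, h1 7⟩


theorem ch2 {K L : Type} [Field K] [Finite K] [Field L] [Finite L] [Algebra K L]
    {σ : L ≃ₐ[K] L} (h : Cyc2 σ) : (2 : L) = 0 := by
  have h1 := congrArg (algebraMap K L) h.two
  rwa [map_ofNat, map_zero] at h1

theorem ind : S2_IND := by
  intro K L _ _ _ _ _ σ h c0 c1 c2 c3 hc
  have two := ch2 h
  have h1 := indep8' σ h c0 c1 c2 c3 c0 c1 c2 c3 (by
    intro y
    have h2 := b8 K L σ h y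
    have hW : y + σ (σ (σ (σ y))) ∈ E4 σ := by
      show σ (σ (σ (σ (y + σ (σ (σ (σ y))))))) = y + σ (σ (σ (σ y)))
      simp only [map_add, h2]
      ring
    have h3 := hc _ hW
    simp only [map_add] at h3
    linear_combination h3)
  exact ⟨h1.1, h1.2.1, h1.2.2.1, h1.2.2.2.1⟩

theorem exth {K L : Type} [Field K] [Finite K] [Field L] [Finite L] [Algebra K L]
    {σ : L ≃ₐ[K] L} (h : Cyc2 σ) : ∃ θ : L, σ (σ (σ (σ θ))) = θ + 1 := by
  have two := ch2 h
  obtain ⟨y, hy⟩ : ∃ y : L, y + σ (σ (σ (σ y))) ≠ 0 := by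
    by_contra hcon
    push Not at hcon
    have := (indep8' σ h 1 0 0 0 1 0 0 0 (by
      intro y
      linear_combination hcon y)).1
    exact one_ne_zero this
  refine ⟨y / (y + σ (σ (σ (σ y)))), ?_⟩
  simp only [map_div₀, map_add, b8 K L σ h y]
  have hy' : σ (σ (σ (σ y))) + y ≠ 0 := by rwa [add_comm]
  rw [div_add_one hy, div_eq_div_iff hy' hy]
  linear_combination (-(y * (y + σ (σ (σ (σ y)))))) * two

theorem dbl {K L : Type} [Field K] [Field L] [Finite L] [Algebra K L] (U V : Submodule K L) (d : L)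
    (hd : d ≠ 0) (h1 : ∀ x ∈ U, ∀ z ∈ U, x = d * z → z = 0)
    (h2 : ∀ x, x ∈ V ↔ ∃ y ∈ U, ∃ z ∈ U, x = y + d * z) : finrank K V = 2 * finrank K U := by
  have h3 : finrank K (U.map (LinearMap.mulLeft K d)) = finrank K U := by
    have hi : Function.Injective (LinearMap.mulLeft K d) := fun a b hab => mul_left_cancel₀ hd hab
    exact (LinearEquiv.finrank_eq (Submodule.equivMapOfInjective _ hi U)).symm
  have h4 : U ⊓ U.map (LinearMap.mulLeft K d) = ⊥ := by
    rw [eq_bot_iff]
    rintro x ⟨hx, z, hz, rfl⟩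
    have h5 : z = 0 := h1 _ hx z hz rfl
    simp [h5]
  have h5 : U ⊔ U.map (LinearMap.mulLeft K d) = V := by
    ext x
    rw [Submodule.mem_sup, h2]
    constructor
    · rintro ⟨y, hy, w, ⟨z, hz, rfl⟩, rfl⟩
      exact ⟨y, hy, z, hz, rfl⟩
    · rintro ⟨y, hy, z, hz, rfl⟩
      exact ⟨y, hy, _, ⟨z, hz, rfl⟩, rfl⟩
  have h6 := Submodule.finrank_sup_add_finrank_inf_eq U (U.map (LinearMap.mulLeft K d))
  rw [h4, h5, finrank_bot, h3] at h6
  omega

theorem dim : S2_DIM := by
  intro K L _ _ _ _ _ σ h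
  have two := ch2 h
  obtain ⟨θ, hθ⟩ := exth h
  have hE : ∀ x, x ∈ E4 σ ↔ σ (σ (σ (σ x))) = x := fun x => Iff.rfl
  have h2 : ∀ x, x ∈ E2 σ ↔ σ (σ x) = x := fun x => Iff.rfl
  have hθ0 : θ ≠ 0 := by
    rintro rfl
    simp at hθ
  have e1 : finrank K (⊤ : Submodule K L) = 2 * finrank K (E4 σ) := by
    apply dbl (E4 σ) ⊤ θ hθ0
    · intro x hx z hz hxz
      rw [hE] at hx hz
      rw [hxz] at hx
      simp only [map_mul, hθ, hz] at hx
      linear_combination hx
    · intro x
      refine ⟨fun _ => ⟨x + θ * (x + σ (σ (σ (σ x)))), ?_, x + σ (σ (σ (σ x))), ?_, ?_⟩,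
        fun _ => Submodule.mem_top⟩
      · rw [hE]
        simp only [map_add, map_mul, hθ, b8 K L σ h x]
        linear_combination (x + σ (σ (σ (σ x)))) * two - x * two
      · rw [hE]
        simp only [map_add, b8 K L σ h x]
        ring
      · linear_combination (-(θ * (x + σ (σ (σ (σ x)))))) * two
  rw [finrank_top, h.rank] at e1
  -- d ∈ E4 with d + d2 = 1
  obtain ⟨d, hd4, hd⟩ : ∃ d : L, σ (σ (σ (σ d))) = d ∧ σ (σ d) = d + 1 := by
    have hθ5 : σ (σ (σ (σ (σ θ)))) = σ θ + 1 := by rw [hθ, map_add, map_one]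
    have hθ6 : σ (σ (σ (σ (σ (σ θ))))) = σ (σ θ) + 1 := by rw [hθ5, map_add, map_one]
    have hθ7 : σ (σ (σ (σ (σ (σ (σ θ)))))) = σ (σ (σ θ)) + 1 := by rw [hθ6, map_add, map_one]
    have hf : θ + σ θ + σ (σ θ) + σ (σ (σ θ)) ≠ 0 := by
      intro h0
      have h1 := congrArg σ h0
      simp only [map_add, map_zero, hθ] at h1
      have : (1 : L) = 0 := by linear_combination h1 - h0
      exact one_ne_zero this
    have hf' : σ (σ θ) + σ (σ (σ θ)) + (θ + 1) + (σ θ + 1) ≠ 0 := by
      intro h0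
      apply hf
      linear_combination h0 - two
    refine ⟨(θ + σ θ) / (θ + σ θ + σ (σ θ) + σ (σ (σ θ))), ?_, ?_⟩
    · simp only [map_div₀, map_add, map_one, hθ]
      congr 1
      · linear_combination two
      · linear_combination 2 * two
    · simp only [map_div₀, map_add, map_one, hθ]
      rw [div_eq_iff hf', add_mul, one_mul, div_mul_eq_mul_div, eq_comm]
      have : σ (σ θ) + σ (σ (σ θ)) + (θ + 1) + (σ θ + 1) =
          θ + σ θ + σ (σ θ) + σ (σ (σ θ)) := by linear_combination two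
      rw [this, mul_div_assoc, div_self hf, mul_one]
      linear_combination (θ + σ θ) * two
  have hd0 : d ≠ 0 := by
    rintro rfl
    simp at hd
  have e2 : finrank K (E4 σ) = 2 * finrank K (E2 σ) := by
    apply dbl (E2 σ) (E4 σ) d hd0
    · intro x hx z hz hxz
      rw [h2] at hx hz
      rw [hxz] at hx
      simp only [map_mul, hd, hz] at hx
      linear_combination hx
    · intro x
      constructor
      · intro hx
        rw [hE] at hx
        refine ⟨x + d * (x + σ (σ x)), ?_, x + σ (σ x), ?_, ?_⟩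
        · rw [h2]
          simp only [map_add, map_mul, hd, hx]
          linear_combination (σ (σ x)) * two
        · rw [h2]
          simp only [map_add, hx]
          ring
        · linear_combination (-(d * (x + σ (σ x)))) * two
      · rintro ⟨y, hy, z, hz, rfl⟩
        rw [h2] at hy hz
        rw [hE]
        simp only [map_add, map_mul, hy, hz, hd, map_one]
        linear_combination z * two
  omega

theorem tr : S2_TR := by
  intro K L _ _ _ _ _ σ h x
  obtain ⟨s, hs, hσ⟩ := h.pow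
  obtain ⟨q, hq⟩ : ∃ q, q = Nat.card K := ⟨_, rfl⟩
  rw [← hq] at hσ
  have h8 : ∀ y : L, y ^ (q ^ 8) = y := by
    intro y
    have := Fintype.ofFinite L
    have h1 : Nat.card L = q ^ 8 := by
      rw [hq, ← h.rank]
      exact Module.natCard_eq_pow_finrank
    have h2 := FiniteField.pow_card y
    rwa [← Nat.card_eq_fintype_card, h1] at h2
  have hper : Function.Periodic (fun i : ℕ => x ^ (q ^ i)) 8 := by
    intro i
    show x ^ (q ^ (i + 8)) = x ^ (q ^ i)
    rw [show q ^ (i + 8) = q ^ 8 * q ^ i by ring, pow_mul, h8]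
  have hmod : ∀ i : ℕ, x ^ (q ^ i) = x ^ (q ^ (i % 8)) := fun i => (hper.map_mod_nat i).symm
  have hst : ∀ i : ℕ, (x ^ (q ^ i)) ^ (q ^ s) = x ^ (q ^ (i + s)) := by
    intro i
    rw [← pow_mul, ← pow_add]
  have e1 : σ x = x ^ (q ^ s) := hσ x
  have e2 : σ (σ x) = x ^ (q ^ (s + s)) := by rw [e1, hσ, hst]
  have e3 : σ (σ (σ x)) = x ^ (q ^ (s + s + s)) := by rw [e2, hσ, hst]
  have e4 : σ (σ (σ (σ x))) = x ^ (q ^ (s + s + s + s)) := by rw [e3, hσ, hst]
  have e5 : σ (σ (σ (σ (σ x)))) = x ^ (q ^ (s + s + s + s + s)) := by rw [e4, hσ, hst]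
  have e6 : σ (σ (σ (σ (σ (σ x))))) = x ^ (q ^ (s + s + s + s + s + s)) := by rw [e5, hσ, hst]
  have e7 : σ (σ (σ (σ (σ (σ (σ x)))))) = x ^ (q ^ (s + s + s + s + s + s + s)) := by rw [e6, hσ, hst]
  rw [FiniteField.algebraMap_trace_eq_sum_pow, h.rank, e7, e6, e5, e4, e3, e2, e1, ← hq]
  simp only [Finset.sum_range_succ, Finset.sum_range_zero, zero_add, pow_zero, pow_one]
  have hs2 : s % 2 = 1 := Nat.odd_iff.1 hs
  rw [hmod (s + s + s + s + s + s + s), hmod (s + s + s + s + s + s), hmod (s + s + s + s + s), hmod (s + s + s + s), hmod (s + s + s), hmod (s + s), hmod (s)]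
  have hc : s % 8 = 1 ∨ s % 8 = 3 ∨ s % 8 = 5 ∨ s % 8 = 7 := by omega
  rcases hc with hr | hr | hr | hr
  · rw [show (s + s + s + s + s + s + s) % 8 = 7 by omega, show (s + s + s + s + s + s) % 8 = 6 by omega, show (s + s + s + s + s) % 8 = 5 by omega, show (s + s + s + s) % 8 = 4 by omega, show (s + s + s) % 8 = 3 by omega, show (s + s) % 8 = 2 by omega, show (s) % 8 = 1 by omega]
    simp only [pow_one]
  · rw [show (s + s + s + s + s + s + s) % 8 = 5 by omega, show (s + s + s + s + s + s) % 8 = 2 by omega, show (s + s + s + s + s) % 8 = 7 by omega, show (s + s + s + s) % 8 = 4 by omega, show (s + s + s) % 8 = 1 by omega, show (s + s) % 8 = 6 by omega, show (s) % 8 = 3 by omega]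
    simp only [pow_one]
    ring
  · rw [show (s + s + s + s + s + s + s) % 8 = 3 by omega, show (s + s + s + s + s + s) % 8 = 6 by omega, show (s + s + s + s + s) % 8 = 1 by omega, show (s + s + s + s) % 8 = 4 by omega, show (s + s + s) % 8 = 7 by omega, show (s + s) % 8 = 2 by omega, show (s) % 8 = 5 by omega]
    simp only [pow_one]
    ring
  · rw [show (s + s + s + s + s + s + s) % 8 = 1 by omega, show (s + s + s + s + s + s) % 8 = 2 by omega, show (s + s + s + s + s) % 8 = 3 by omega, show (s + s + s + s) % 8 = 4 by omega, show (s + s + s) % 8 = 5 by omega, show (s + s) % 8 = 6 by omega, show (s) % 8 = 7 by omega]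
    simp only [pow_one]
    ring


end Q49.MR2
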