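import Mathlib
import Pool.Agent.Q49.MR2.Stm
import Pool.Agent.Q49.MR2.BAS2

set_option autoImplicit false

open Module

namespace Q49.MR2

open Q49.MR (Rel codeC IsMRD)

theorem exsq {F : Type} [Field F] [Finite F] (h2 : (2 : F) = 0) (c : F) : ∃ r : F, r ^ 2 = c := by
  haveI := Fintype.ofFinite F
  have h1 : ringChar F = 2 := by
    have h3 : ringChar F ∣ 2 := ringChar.dvd (by exact_mod_cast h2)
    rcases (Nat.dvd_prime Nat.prime_two).1 h3 with h5 | h5
    · exact absurd h5 CharP.ringChar_ne_one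
    · exact h5
  obtain ⟨r, hr⟩ := FiniteField.isSquare_of_char_two h1 c
  exact ⟨r, by rw [hr]; ring⟩

theorem N4_fixed {K L : Type} [Field K] [Field L] [Algebra K L] {σ : L ≃ₐ[K] L}
    {θ m : L} (two : (2 : L) = 0)
    (hθ : σ (σ (σ (σ θ))) = θ + 1) (hm : σ (σ (σ (σ m))) = m) :
    σ (N4 σ θ m) = N4 σ θ m := by
  simp only [N4, t4, nu, phi, map_add, map_one, hθ, hm]
  ring_nf
  linear_combination two

/-- A common zero of `Ψ` and `G`. -/
theorem zero (hQ4 : S2_Q4) (hTNE : S2_TNE) (hTOR : S2_TOR) (hPSI : S2_PSI) (hPEN : S2_PEN)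
    (hMEM : S2_MEM) (hARF : S2_ARF) (hEXW : S2_EXW)
    (K L : Type) [Field K] [Finite K] [Field L] [Finite L] [Algebra K L]
    (σ : L ≃ₐ[K] L) (h : Cyc2 σ) (θ m : L) (hθ : σ (σ (σ (σ θ))) = θ + 1)
    (hm : σ (σ (σ (σ m))) = m) (hm0 : m ≠ 0) (hm1 : m ≠ 1) :
    ∃ (w : L) (ρ : K), w ≠ 0 ∧ InV σ (w, ρ) ∧ P2 σ θ m w (algebraMap K L ρ) = 0 ∧
      G2 σ θ m w (algebraMap K L ρ) = 0 := by
  have two := ch2 h
  obtain ⟨t, ht, htne⟩ := hTNE K L σ h θ hθ
  have hNf := N4_fixed two hθ hm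
  by_cases hN : N4 σ θ m = 0
  · -- w = 1
    have hA : σ (nu σ θ m + σ (σ (nu σ θ m))) = nu σ θ m + σ (σ (nu σ θ m)) := by
      have h1 : nu σ θ m + σ (nu σ θ m) + σ (σ (nu σ θ m)) + σ (σ (σ (nu σ θ m))) = 0 := hN
      rw [map_add]
      linear_combination h1 - (nu σ θ m + σ (σ (nu σ θ m))) * two
    obtain ⟨a, ha⟩ := fx K L σ h _ hA
    obtain ⟨ρ, hρ⟩ := exsq h.two (a + t)
    refine ⟨1, ρ, one_ne_zero, ⟨by simp, ?_⟩, ?_, ?_⟩
    · simp only [t4, map_one]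
      linear_combination 2 * two
    · simp only [P2, map_one, mul_one]
      have h1 : t4 σ (nu σ θ m) = 0 := hN
      rw [h1]
      linear_combination (algebraMap K L ρ) * two
    · simp only [G2, map_one, mul_one, one_pow]
      rw [← map_pow, hρ, map_add, ha, ht]
      linear_combination (algebraMap K L ρ + nu σ θ m + σ (σ (nu σ θ m)) + t4 σ (nn θ)) * two
  · by_contra hcon
    push Not at hcon
    have hno : ∀ z : L × K, InV σ z → P2 σ θ m z.1 (algebraMap K L z.2) = 0 →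
        G2 σ θ m z.1 (algebraMap K L z.2) = 0 → z = 0 := by
      rintro ⟨w, ρ⟩ hz hP hG
      by_cases hw : w = 0
      · subst hw
        simp only [G2, map_zero, mul_zero, add_zero, t4, ne_eq, OfNat.ofNat_ne_zero,
          not_false_eq_true, zero_pow] at hG
        have hρ : ρ = 0 := by
          have h1 : algebraMap K L ρ = 0 := by
            apply pow_eq_zero_iff (two_ne_zero) |>.1
            exact hG
          exact (map_eq_zero _).1 h1
        rw [hρ]; rfl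
      · exact absurd hG (hcon w ρ hw hz hP)
    have hP := hPSI K L σ h θ m hθ hm hN
    haveI := Fintype.ofFinite K
    have hq2 : 2 ≤ Nat.card K := by
      rw [Nat.card_eq_fintype_card]; exact Fintype.one_lt_card
    have hlow : ∀ D : L, σ (σ D) = D → D + σ D = 1 → Nat.card K ^ 3 + Nat.card K ≤
        Nat.card {z : L × K // InV σ z ∧ G2 σ θ m z.1 (algebraMap K L z.2)
          + D * P2 σ θ m z.1 (algebraMap K L z.2) = 0} + Nat.card K ^ 2 := by
      intro D hD hD1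
      obtain ⟨w, hw4, hw⟩ := hEXW K L σ h θ D hθ hD hD1
      obtain ⟨x1, x2, x3, p, h1, h2, h3, h4, hp, hcard⟩ := hMEM K L σ h θ m D w hθ hm hN hD hD1
        hw4 hw
      rw [hcard]
      have hq := hQ4 K 1 x1 1 x2 x3 p h.two one_ne_zero hp
      by_cases hc : ∃ c : K, 1 * x1 / 1 ^ 2 + x2 * x3 / p ^ 2 = c ^ 2 + c
      · have h5 := hq.1 hc
        nlinarith
      · have h5 := hq.2 hc
        omega
    have heq := hPEN K L σ h θ m hθ hm hno hP hlow
    -- the special member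
    obtain ⟨b, hb⟩ := exsq two m
    have hb4 : σ (σ (σ (σ b))) = b := by
      have h1 : (σ (σ (σ (σ b))) + b) ^ 2 = 0 := by
        have h2 : (σ (σ (σ (σ b)))) ^ 2 = b ^ 2 := by
          rw [← map_pow, ← map_pow, ← map_pow, ← map_pow, hb, hm]
        linear_combination h2 + (b ^ 2 + σ (σ (σ (σ b))) * b) * two
      have h2 := pow_eq_zero_iff (two_ne_zero) |>.1 h1
      linear_combination h2 - b * two
    subst hb
    have hr0 : b ^ 2 + b ≠ 0 := by
      intro h0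
      have h1 : b * (b + 1) = 0 := by linear_combination h0
      rcases mul_eq_zero.1 h1 with h2 | h2
      · exact hm0 (by rw [h2]; ring)
      · exact hm1 (by linear_combination (b - 1) * h2)
    have hc0 : (b ^ 2 + b) * σ (σ (b ^ 2 + b)) / N4 σ θ (b ^ 2) ≠ 0 := by
      apply div_ne_zero _ hN
      apply mul_ne_zero hr0
      intro h0
      apply hr0
      have h1 : σ (b ^ 2 + b) = 0 := (map_eq_zero σ).1 h0
      exact (map_eq_zero σ).1 h1
    have hc2 : σ (σ ((b ^ 2 + b) * σ (σ (b ^ 2 + b)) / N4 σ θ (b ^ 2))) =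
        (b ^ 2 + b) * σ (σ (b ^ 2 + b)) / N4 σ θ (b ^ 2) := by
      simp only [map_div₀, map_mul, hNf]
      simp only [map_add, map_pow, hb4]
      ring
    obtain ⟨D, hD, hD1, Y', hY'⟩ := hTOR K L σ h _ hc0 hc2 t htne
    obtain ⟨w, hw4, hw⟩ := hEXW K L σ h θ D hθ hD hD1
    obtain ⟨Y, hY⟩ := hARF K L σ h θ b D w hθ hb4 hN hD hD1 hw4 hw
    obtain ⟨x1, x2, x3, p, h1, h2, h3, h4, hp, hcard⟩ := hMEM K L σ h θ (b ^ 2) D w hθ hm hN
      hD hD1 hw4 hw
    have hq := (hQ4 K 1 x1 1 x2 x3 p h.two one_ne_zero hp).1 (by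
      refine ⟨Y + Y', ?_⟩
      apply (algebraMap K L).injective
      rw [← h1, ← h2, ← h3, ← h4] at hY
      rw [← ht] at hY
      simp only [map_add, map_div₀, map_mul, map_pow, map_one] at hY hY' ⊢
      linear_combination hY + hY' - (algebraMap K L Y * algebraMap K L Y') * two)
    have he := heq D hD hD1
    rw [hcard] at he
    nlinarith

theorem card_sum {K L : Type} [Field K] [Finite K] [Field L] [Finite L] [Algebra K L]
    (σ : L ≃ₐ[K] L) (θ m o : L) [Fintype (E2 σ)] :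
    Nat.card {z : E2 σ × (E4 σ × K) //
      z.2.2 ^ 2 + z.2.2 * TT σ o z.2.1 + BB σ θ m o z.1 z.2.1 z.2.1 = 0} =
    ∑ χ : E2 σ, Nat.card {z : E4 σ × K //
      z.2 ^ 2 + z.2 * TT σ o z.1 + BB σ θ m o χ z.1 z.1 = 0} := by
  rw [← Nat.card_sigma]
  exact Nat.card_congr
    (Equiv.subtypeProdEquivSigmaSubtype (fun (χ : E2 σ) (z : E4 σ × K) =>
      z.2 ^ 2 + z.2 * TT σ o z.1 + BB σ θ m o χ z.1 z.1 = 0))

/-- A solution exists. -/
theorem sol (hZ : ∀ (K L : Type) [Field K] [Finite K] [Field L] [Finite L] [Algebra K L]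
    (σ : L ≃ₐ[K] L), Cyc2 σ → ∀ θ m : L, σ (σ (σ (σ θ))) = θ + 1 →
    σ (σ (σ (σ m))) = m → m ≠ 0 → m ≠ 1 →
    ∃ (w : L) (ρ : K), w ≠ 0 ∧ InV σ (w, ρ) ∧ P2 σ θ m w (algebraMap K L ρ) = 0 ∧
      G2 σ θ m w (algebraMap K L ρ) = 0)
    (hCHI : S2_CHI) (hKV : S2_KV) (hBC : S2_BC) (hB0 : S2_B0) (hB1 : S2_B1) (hE : S2_E)
    (K L : Type) [Field K] [Finite K] [Field L] [Finite L] [Algebra K L]
    (σ : L ≃ₐ[K] L) (h : Cyc2 σ) (θ m : L) (hθ : σ (σ (σ (σ θ))) = θ + 1)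
    (hm : σ (σ (σ (σ m))) = m) (hm0 : m ≠ 0) (hm1 : m ≠ 1) : Sol2 σ θ m := by
  classical
  have two := ch2 h
  haveI := Fintype.ofFinite K
  obtain ⟨w, ρ, hw0, hV, hP, hG⟩ := hZ K L σ h θ m hθ hm hm0 hm1
  obtain ⟨χ0, hχ0, hdeg, hval⟩ := hCHI K L σ h θ m w ρ hθ hm hw0 hV hP hG
  obtain ⟨o, ho⟩ : ∃ o : L, Algebra.trace K L o = 1 := Algebra.trace_surjective K L 1
  have hd := (dim K L σ h).1
  have hd2 := (dim K L σ h).2
  haveI := Fintype.ofFinite (E2 σ)
  have hinj := (algebraMap K L).injective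
  -- T ≠ 0
  have hT : TT σ o ≠ 0 := by
    intro h0
    have hφ : phi σ θ ∈ E4 σ := by
      show σ (σ (σ (σ (phi σ θ)))) = phi σ θ
      simp only [phi, map_add, hθ, map_one]
      linear_combination two
    have h1 := (hKV K L σ h θ m o χ0 ho hθ hm hχ0 ⟨_, hφ⟩ ⟨_, hφ⟩).1
    rw [h0] at h1
    simp only [LinearMap.zero_apply, map_zero, t4, phi, map_add, hθ] at h1
    have h2 : (1 : L) = 0 := by
      linear_combination (-1 : L) * h1 - (σ θ + σ (σ θ) + σ (σ (σ θ)) + θ) * two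
    exact one_ne_zero h2
  set v0 : E4 σ := ⟨w, hV.1⟩ with hv0
  have hv00 : v0 ≠ 0 := by
    intro h0
    exact hw0 (congrArg Subtype.val h0)
  have hTv : TT σ o v0 = 0 := by
    apply hinj
    rw [(hKV K L σ h θ m o χ0 ho hθ hm hχ0 v0 v0).1, map_zero]
    exact hV.2
  have hpol : ∀ v', ρ * TT σ o v' + BB σ θ m o χ0 v0 v' + BB σ θ m o χ0 v' v0 = 0 := by
    intro v'
    apply hinj
    rw [add_assoc, map_add, (hKV K L σ h θ m o χ0 ho hθ hm hχ0 v0 v').2.2, map_mul,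
      (hKV K L σ h θ m o χ0 ho hθ hm hχ0 v' v').1, map_zero]
    have h1 : nu σ θ m * σ (v0 : L) + σ (σ (σ (nu σ θ m))) * σ (σ (σ (v0 : L)))
        + χ0 * σ (σ (v0 : L)) = algebraMap K L ρ := by
      have h2 : nu σ θ m * σ (v0 : L) + σ (σ (σ (nu σ θ m))) * σ (σ (σ (v0 : L)))
        + χ0 * σ (σ (v0 : L)) + algebraMap K L ρ = 0 := hdeg
      linear_combination h2 - (algebraMap K L ρ) * two
    rw [h1]
    simp only [t4, map_mul, AlgEquiv.commutes]
    linear_combination (algebraMap K L ρ * ((v' : L) + σ v' + σ (σ v') + σ (σ (σ (v' : L))))) * two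
  have hself : ρ ^ 2 + BB σ θ m o χ0 v0 v0 = 0 := by
    apply hinj
    rw [map_add, (hKV K L σ h θ m o χ0 ho hθ hm hχ0 v0 v0).2.1, map_pow, map_zero]
    exact hval
  have hq1 : 1 ≤ Nat.card K := Nat.card_pos
  have hcE2 : Fintype.card (E2 σ) = Nat.card K ^ 2 := by
    rw [← Nat.card_eq_fintype_card, Module.natCard_eq_pow_finrank (K := K), hd2]
  obtain ⟨χ, hχ, v, r, hvr, h1, h2, h3, h4⟩ : ∃ χ : L, σ (σ χ) = χ ∧ ∃ (v : E4 σ) (r : K),
      (v ≠ 0 ∨ r ≠ 0) ∧ TT σ o v = 0 ∧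
      (∀ v', r * TT σ o v' + BB σ θ m o χ v v' + BB σ θ m o χ v' v = 0) ∧
      r ^ 2 + BB σ θ m o χ v v = 0 ∧
      Nat.card K ^ 4 ≤ Nat.card {z : E4 σ × K //
        z.2 ^ 2 + z.2 * TT σ o z.1 + BB σ θ m o χ z.1 z.1 = 0} := by
    by_contra hcon
    push Not at hcon
    have hs := hBC K L σ h θ m o ho hθ hm
    rw [card_sum] at hs
    have hlt : ∑ χ : E2 σ, Nat.card {z : E4 σ × K //
        z.2 ^ 2 + z.2 * TT σ o z.1 + BB σ θ m o χ z.1 z.1 = 0} <
        ∑ _χ : E2 σ, Nat.card K ^ 4 := by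
      apply Finset.sum_lt_sum
      · intro χ _
        by_cases hdg : ∃ (v : E4 σ) (r : K), (v ≠ 0 ∨ r ≠ 0) ∧ TT σ o v = 0 ∧
            (∀ v', r * TT σ o v' + BB σ θ m o χ v v' + BB σ θ m o χ v' v = 0) ∧
            r ^ 2 + BB σ θ m o χ v v = 0
        · obtain ⟨v, r, hvr, h1, h2, h3⟩ := hdg
          exact (hcon χ χ.2 v r hvr h1 h2 h3).le
        · refine (hB0 K (E4 σ) (BB σ θ m o χ) (TT σ o) h.two hd ?_).le
          intro v r h1 h2 h3
          by_contra h4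
          apply hdg
          refine ⟨v, r, ?_, h1, h2, h3⟩
          by_contra h5
          push Not at h5
          exact h4 h5
      · exact ⟨⟨χ0, hχ0⟩, Finset.mem_univ _,
          hcon χ0 hχ0 v0 ρ (Or.inl hv00) hTv hpol hself⟩
    rw [Finset.sum_const, Finset.card_univ, hcE2, smul_eq_mul, ← pow_add, hs] at hlt
    exact lt_irrefl _ hlt
  obtain ⟨H, Y, Z, hHYZ⟩ := hB1 K (E4 σ) (BB σ θ m o χ) (TT σ o) h.two hd hT v r hvr h1 h2 h3 h4
  exact hE K L σ h θ m o χ ho hθ hm hχ ⟨H, Y, Z, hHYZ⟩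

/-- The code is not MRD. -/
theorem notMRD (hS : ∀ (K L : Type) [Field K] [Finite K] [Field L] [Finite L] [Algebra K L]
    (σ : L ≃ₐ[K] L), Cyc2 σ → ∀ θ m : L, σ (σ (σ (σ θ))) = θ + 1 →
    σ (σ (σ (σ m))) = m → m ≠ 0 → m ≠ 1 → Sol2 σ θ m)
    (hF : S2_F) (hG : S2_G) (hCOD : S2_COD)
    (K L : Type) [Field K] [Finite K] [Field L] [Finite L] [Algebra K L]
    (σ : L ≃ₐ[K] L) (h : Cyc2 σ) (s : ℕ) (hs : ∀ x, σ x = x ^ (Nat.card K ^ s)) (δ : L)
    (hδ : δ ≠ 0) : ¬ IsMRD (codeC K L s δ) := by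
  intro hM
  have two := ch2 h
  have h8 := b8 K L σ h
  obtain ⟨θ, hθ⟩ := exth h
  have hex : (∃ x : L, σ x ≠ x ∧ Rel σ (δ * σ (σ (σ (σ δ)))) x) ∨
      δ * σ (σ (σ (σ δ))) = 1 := by
    by_cases h1 : δ * σ (σ (σ (σ δ))) = 1
    · exact Or.inr h1
    · left
      set N := δ * σ (σ (σ (σ δ))) with hNdef
      have hN0 : N ≠ 0 := by
        rw [hNdef]
        apply mul_ne_zero hδ
        intro h0
        apply hδ
        have := congrArg (fun z => σ (σ (σ (σ z)))) h0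
        simp only [h8, map_zero] at this
        exact this
      have hN4 : σ (σ (σ (σ N))) = N := by
        rw [hNdef]; simp only [map_mul, h8]; ring
      have hN1 : 1 + N ≠ 0 := by
        intro h0
        apply h1
        linear_combination h0 - two
      refine hF K L σ h θ (1 / (1 + N)) N hθ ?_ ?_ (hS K L σ h θ (1 / (1 + N)) hθ ?_ ?_ ?_)
      · simp only [map_div₀, map_add, map_one, hN4]
      · field_simp
      · simp only [map_div₀, map_add, map_one, hN4]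
      · exact one_div_ne_zero hN1
      · intro h0
        rw [div_eq_one_iff_eq hN1] at h0
        apply hN0
        linear_combination -h0
  obtain ⟨a, b, hab, x, y, hli, hx, hy⟩ := hG K L σ h δ hδ hex
  exact hCOD K L σ h s hs δ hM a b hab x y hx hy hli

/-- the final form -/
theorem fin2 (hC : ∀ (K L : Type) [Field K] [Finite K] [Field L] [Finite L] [Algebra K L]
    (σ : L ≃ₐ[K] L), Cyc2 σ → ∀ s : ℕ, (∀ x, σ x = x ^ (Nat.card K ^ s)) → ∀ δ : L,
    δ ≠ 0 → ¬ IsMRD (codeC K L s δ))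
    (K L : Type) [Field K] [Finite K] [Field L] [Algebra K L] (hq : Even (Nat.card K))
    (h8 : finrank K L = 8) (s : ℕ) (hs : Odd s) (δ : L) (hδ : δ ≠ 0) :
    ¬ IsMRD (codeC K L s δ) := by
  haveI : FiniteDimensional K L := FiniteDimensional.of_finrank_pos (by omega)
  haveI : Finite L := Module.finite_of_finite K
  haveI := Fintype.ofFinite K
  haveI : Algebra.IsAlgebraic K L := Algebra.IsAlgebraic.of_finite K L
  let σ : L ≃ₐ[K] L := (FiniteField.frobeniusAlgEquivOfAlgebraic K L) ^ s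
  have hσ : ∀ x, σ x = x ^ (Nat.card K ^ s) := by
    intro x
    change ((FiniteField.frobeniusAlgEquivOfAlgebraic K L) ^ s) x = _
    rw [AlgEquiv.coe_pow, FiniteField.coe_frobeniusAlgEquivOfAlgebraic_iterate,
      Nat.card_eq_fintype_card]
  have hc : Cyc2 σ := by
    refine ⟨?_, h8, s, hs, hσ⟩
    have h1 : ringChar K = 2 := by
      rw [Nat.card_eq_fintype_card] at hq
      exact (FiniteField.even_card_iff_char_two (F := K)).2 (Nat.even_iff.1 hq)
    haveI : CharP K 2 := by rw [← h1]; exact ringChar.charP K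
    exact_mod_cast CharP.cast_eq_zero K 2
  exact hC K L σ hc s hσ δ hδ

end Q49.MR2
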